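import Mathlib

/-!
# LCM-groups and minimum covers: definitions
-/

set_option autoImplicit false

namespace Pool.Agent.E8helper7.LCM

/-- `G` is an LCM-group: the order of `x ^ n * y` divides the least common multiple of the orders
of `x ^ n` and `y`, for all `x`, `y` in `G` and all `n`. -/
def IsLCMGroup (G : Type) [Group G] : Prop :=
  ∀ (x : G) (n : ℕ) (y : G), orderOf (x ^ n * y) ∣ Nat.lcm (orderOf (x ^ n)) (orderOf y)

/-- A finite family of finite groups. -/
structure Family where
  /-- the index set -/
  ι : Type
  [finι : Finite ι]
  /-- the groups -/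
  G : ι → Type
  [grp : ∀ i, Group (G i)]
  [finG : ∀ i, Finite (G i)]

attribute [instance] Family.finι Family.grp Family.finG

/-- The two families consist of the same groups up to isomorphism. -/
def Family.Same (F F' : Family) : Prop :=
  (∀ i, ∃ j, Nonempty (F.G i ≃* F'.G j)) ∧ ∀ j, ∃ i, Nonempty (F.G i ≃* F'.G j)

/-- `H` contains a copy of every group of the family `F`. -/
def IsCover (F : Family) (H : Type) [Group H] : Prop :=
  ∀ i, ∃ f : F.G i →* H, Function.Injective f

/-- The finite group `H` is a cover of `F` of least possible order. -/
def IsMinCover (F : Family) (H : Type) [Group H] [Finite H] : Prop :=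
  IsCover F H ∧ ∀ (H' : Type) [Group H'] [Finite H'], IsCover F H' → Nat.card H ≤ Nat.card H'

end Pool.Agent.E8helper7.LCM
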