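import Pool.Agent.E8helper7.LCM.Defs

/-!
# Non-LCM minimum covers
-/

set_option autoImplicit false

namespace Pool.Agent.E8helper7.LCM

/-! ## LCM-groups -/

theorem isLCM_of_comm (G : Type) [CommGroup G] : IsLCMGroup G := fun _ _ _ =>
  (Commute.all _ _).orderOf_mul_dvd_lcm

theorem isLCM_of_exponent {G : Type} [Group G] {p : ℕ} (hp : p.Prime) (h : ∀ g : G, g ^ p = 1) :
    IsLCMGroup G := by
  intro x n y
  by_cases h1 : x ^ n = 1
  · rw [h1, one_mul]
    exact Nat.dvd_lcm_right _ _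
  · have h2 : orderOf (x ^ n) = p := by
      rcases (Nat.dvd_prime hp).1 (orderOf_dvd_of_pow_eq_one (h (x ^ n))) with h3 | h3
      · exact absurd (orderOf_eq_one_iff.1 h3) h1
      · exact h3
    rw [h2]
    exact (orderOf_dvd_of_pow_eq_one (h _)).trans (Nat.dvd_lcm_left _ _)

/-! ## Minimum covers of families of `p`-groups are `p`-groups -/

theorem isPGroup_of_minCover {p : ℕ} [Fact p.Prime] {F : Family} (hF : ∀ i, IsPGroup p (F.G i))
    {H : Type} [Group H] [Finite H] (hH : IsMinCover F H) : IsPGroup p H := by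
  obtain ⟨P⟩ : Nonempty (Sylow p H) := inferInstance
  have hc : IsCover F (P : Subgroup H) := by
    intro i
    obtain ⟨f, hf⟩ := hH.1 i
    have h1 : IsPGroup p f.range := (hF i).of_surjective f.rangeRestrict f.rangeRestrict_surjective
    obtain ⟨Q, hQ⟩ := h1.exists_le_sylow
    refine ⟨((Sylow.equiv Q P).toMonoidHom.comp (Subgroup.inclusion hQ)).comp f.rangeRestrict, ?_⟩
    intro a b hab
    simp only [MonoidHom.comp_apply] at hab
    have h2 := (Sylow.equiv Q P).injective hab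
    have h3 := Subgroup.inclusion_injective hQ h2
    exact hf (congrArg Subtype.val h3)
  have h1 := hH.2 _ hc
  have h2 : (P : Subgroup H) = ⊤ := Subgroup.eq_top_of_le_card _ h1
  have h3 := P.isPGroup'
  have h4 : IsPGroup p (⊤ : Subgroup H) := h2 ▸ h3
  exact h4.of_equiv Subgroup.topEquiv

/-! ## The wreath product -/

/-- the wreath product of the additive groups `ZMod m` and `ZMod p` -/
@[ext] structure W (p m : ℕ) where
  /-- the top part -/
  c : ZMod p
  /-- the base part -/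
  v : ZMod p → ZMod m

namespace W

variable {p m : ℕ}

instance : Mul (W p m) := ⟨fun g h => ⟨g.c + h.c, fun i => g.v i + h.v (i + g.c)⟩⟩
instance : One (W p m) := ⟨⟨0, fun _ => 0⟩⟩
instance : Inv (W p m) := ⟨fun g => ⟨-g.c, fun i => -g.v (i - g.c)⟩⟩

@[simp] theorem mul_c (g h : W p m) : (g * h).c = g.c + h.c := rfl
@[simp] theorem mul_v (g h : W p m) (i : ZMod p) : (g * h).v i = g.v i + h.v (i + g.c) := rfl
@[simp] theorem one_c : (1 : W p m).c = 0 := rfl
@[simp] theorem one_v (i : ZMod p) : (1 : W p m).v i = 0 := rfl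
@[simp] theorem inv_c (g : W p m) : (g⁻¹).c = -g.c := rfl
@[simp] theorem inv_v (g : W p m) (i : ZMod p) : (g⁻¹).v i = -g.v (i - g.c) := rfl

instance : Group (W p m) := Group.ofLeftAxioms
  (by
    intro g h k
    ext i
    · simp [add_assoc]
    · simp [add_assoc])
  (by
    intro g
    ext i
    · simp
    · simp)
  (by
    intro g
    ext i
    · simp
    · simp [sub_eq_add_neg])

/-- the underlying pairs -/
def equiv : W p m ≃ ZMod p × (ZMod p → ZMod m) where
  toFun g := (g.c, g.v)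
  invFun x := ⟨x.1, x.2⟩
  left_inv _ := rfl
  right_inv _ := rfl

instance [NeZero p] [NeZero m] : Finite (W p m) := Finite.of_equiv _ equiv.symm

theorem card [NeZero p] [NeZero m] : Nat.card (W p m) = p * m ^ p := by
  rw [Nat.card_congr equiv, Nat.card_prod, Nat.card_fun]
  simp

theorem pow_c (g : W p m) (n : ℕ) : (g ^ n).c = n * g.c := by
  induction n with
  | zero => simp
  | succ n ih => rw [pow_succ, mul_c, ih]; push_cast; ring

theorem pow_v (g : W p m) (n : ℕ) (i : ZMod p) :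
    (g ^ n).v i = ∑ t ∈ Finset.range n, g.v (i + t * g.c) := by
  induction n with
  | zero => simp
  | succ n ih => rw [pow_succ, mul_v, ih, Finset.sum_range_succ, pow_c]

/-- the base group -/
def base : Multiplicative (ZMod p → ZMod m) →* W p m where
  toFun v := ⟨0, v.toAdd⟩
  map_one' := rfl
  map_mul' v w := by
    ext i
    · simp
    · simp

theorem base_injective : Function.Injective (base (p := p) (m := m)) := by
  intro v w h
  have := congrArg W.v h
  exact this

/-- the elements of the wreath product with base part of exponent `p` and sum zero -/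
def E (p m : ℕ) [NeZero p] : Subgroup (W p m) where
  carrier := {g | (∀ i, (p : ZMod m) * g.v i = 0) ∧ ∑ i, g.v i = 0}
  mul_mem' := by
    rintro g h ⟨h1, h2⟩ ⟨h3, h4⟩
    refine ⟨fun i => by rw [mul_v, mul_add, h1, h3, add_zero], ?_⟩
    simp only [mul_v, Finset.sum_add_distrib, h2, zero_add]
    rw [← h4]
    exact Equiv.sum_comp (Equiv.addRight g.c) h.v
  one_mem' := by simp
  inv_mem' := by
    rintro g ⟨h1, h2⟩
    refine ⟨fun i => by rw [inv_v, mul_neg, h1, neg_zero], ?_⟩
    simp only [inv_v, Finset.sum_neg_distrib, neg_eq_zero]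
    rw [← h2]
    exact Equiv.sum_comp (Equiv.subRight g.c) g.v

theorem E_pow [Fact p.Prime] (g : E p m) : g ^ p = 1 := by
  obtain ⟨g, h1, h2⟩ := g
  apply Subtype.ext
  change g ^ p = 1
  ext i
  · rw [pow_c]
    simp
  · rw [pow_v, one_v]
    by_cases hc : g.c = 0
    · simp [hc, h1]
    · rw [← h2]
      have e : (∑ t ∈ Finset.range p, g.v (i + t * g.c)) = ∑ t : ZMod p, g.v (i + t * g.c) := by
        rw [← Fin.sum_univ_eq_sum_range (fun t : ℕ => g.v (i + t * g.c)) p]
        refine Fintype.sum_equiv (ZMod.finEquiv p).toEquiv _ _ fun t => ?_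
        congr 2
        have : ((ZMod.finEquiv p) t : ZMod p) = ((t : ℕ) : ZMod p) := by
          obtain ⟨q, hq⟩ : ∃ q, p = q + 1 := ⟨p - 1, (Nat.succ_pred (NeZero.ne p)).symm⟩
          subst hq
          exact (Fin.cast_val_eq_self t).symm
        change ((t : ℕ) : ZMod p) * g.c = (ZMod.finEquiv p) t * g.c
        rw [this]
      rw [e]
      exact Equiv.sum_comp ((Equiv.mulRight₀ g.c hc).trans (Equiv.addLeft i)) g.v

theorem natCast_pow_mul {K : ℕ} (hK : 1 ≤ K) : (p : ZMod (p ^ K)) * (p : ZMod (p ^ K)) ^ (K - 1) = 0 := by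
  rw [← pow_succ', Nat.sub_add_cancel hK, ← Nat.cast_pow, ZMod.natCast_self]

theorem two_mul_ne [Fact p.Prime] (h2 : p ≠ 2) {K : ℕ} (hK : 1 ≤ K) :
    (2 : ZMod (p ^ K)) * (p : ZMod (p ^ K)) ^ (K - 1) ≠ 0 := by
  intro h
  have h1 : ((2 * p ^ (K - 1) : ℕ) : ZMod (p ^ K)) = 0 := by
    push_cast
    exact h
  rw [ZMod.natCast_eq_zero_iff] at h1
  have h3 : p ^ K = p * p ^ (K - 1) := by rw [← pow_succ', Nat.sub_add_cancel hK]
  rw [h3] at h1
  have hp := (Fact.out : p.Prime)
  have h4 := Nat.dvd_of_mul_dvd_mul_right (pow_pos hp.pos _) h1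
  exact h2 ((Nat.prime_dvd_prime_iff_eq hp Nat.prime_two).1 h4)

theorem exists_not_comm [Fact p.Prime] (h2 : p ≠ 2) {K : ℕ} (hK : 1 ≤ K) :
    ∃ g h : E p (p ^ K), g * h ≠ h * g := by
  classical
  have h01 : (0 : ZMod p) ≠ 1 := zero_ne_one
  set a : ZMod (p ^ K) := (p : ZMod (p ^ K)) ^ (K - 1) with ha
  have hpa : (p : ZMod (p ^ K)) * a = 0 := natCast_pow_mul hK
  let w : ZMod p → ZMod (p ^ K) := Pi.single 0 a + Pi.single 1 (-a)
  have w0 : w 0 = a := by simp [w, h01]
  have w1 : w 1 = -a := by simp [w, h01.symm]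
  have hw : (⟨0, w⟩ : W p (p ^ K)) ∈ E p (p ^ K) := by
    refine ⟨fun i => ?_, ?_⟩
    · simp only [w, Pi.add_apply, Pi.single_apply]
      split_ifs <;> simp [hpa]
    · simp [w, Finset.sum_add_distrib]
  have hs : (⟨1, fun _ => 0⟩ : W p (p ^ K)) ∈ E p (p ^ K) := by
    refine ⟨fun i => ?_, ?_⟩ <;> simp
  refine ⟨⟨_, hs⟩, ⟨_, hw⟩, fun h => ?_⟩
  have h3 := congrArg (fun g : E p (p ^ K) => g.1.v 0) h
  simp only [Subgroup.coe_mul, mul_v, zero_add, add_zero] at h3
  rw [w0, w1] at h3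
  have h4 : (2 : ZMod (p ^ K)) * a = 0 := by linear_combination -h3
  exact two_mul_ne h2 hK h4

theorem exists_root [Fact p.Prime] {K : ℕ} (hK : 2 ≤ K) (x : ZMod (p ^ K))
    (h : (p : ZMod (p ^ K)) * x = 0) : ∃ y : ZMod (p ^ K), (p : ZMod (p ^ K)) * y = x := by
  have hp := (Fact.out : p.Prime)
  have hne : NeZero (p ^ K) := ⟨pow_ne_zero _ hp.ne_zero⟩
  have h1 : ((p * x.val : ℕ) : ZMod (p ^ K)) = 0 := by
    push_cast
    rw [ZMod.natCast_zmod_val]
    exact h
  rw [ZMod.natCast_eq_zero_iff] at h1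
  have h3 : p ^ K = p * p ^ (K - 1) := by rw [← pow_succ', Nat.sub_add_cancel (by omega)]
  have h5 : ∀ w : ℕ, p ^ K ∣ p * w → p ^ (K - 1) ∣ w := fun w hw => by
    rw [h3] at hw
    exact Nat.dvd_of_mul_dvd_mul_left hp.pos hw
  have h4 : p ^ (K - 1) ∣ x.val := h5 _ h1
  obtain ⟨z, hz⟩ := (dvd_pow_self p (by omega : K - 1 ≠ 0)).trans h4
  refine ⟨(z : ZMod (p ^ K)), ?_⟩
  rw [← Nat.cast_mul, ← hz, ZMod.natCast_zmod_val]

end W

/-! ## The families -/

open W

/-- The family consisting of the group `E` and the homocyclic group of rank `p` and exponent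
`p ^ K`. -/
def fam (p K : ℕ) [hp : Fact p.Prime] : Family :=
  haveI : NeZero (p ^ K) := ⟨pow_ne_zero _ hp.out.ne_zero⟩
  { ι := Bool
    G := fun b => cond b (E p (p ^ K)) (Multiplicative (ZMod p → ZMod (p ^ K)))
    grp := fun b => match b with
      | true => inferInstanceAs (Group (E p (p ^ K)))
      | false => inferInstanceAs (Group (Multiplicative (ZMod p → ZMod (p ^ K))))
    finG := fun b => match b with
      | true => inferInstanceAs (Finite (E p (p ^ K)))
      | false => inferInstanceAs (Finite (ZMod p → ZMod (p ^ K))) }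

theorem fam_lcm (p K : ℕ) [hp : Fact p.Prime] (i : (fam p K).ι) :
    IsPGroup p ((fam p K).G i) ∧ IsLCMGroup ((fam p K).G i) := by
  have : NeZero (p ^ K) := ⟨pow_ne_zero _ hp.out.ne_zero⟩
  match i with
  | true =>
    refine ⟨?_, ?_⟩
    · intro g
      exact ⟨1, by rw [pow_one]; exact E_pow (p := p) (m := p ^ K) g⟩
    · exact isLCM_of_exponent (G := E p (p ^ K)) hp.out E_pow
  | false =>
    refine ⟨?_, ?_⟩
    · apply IsPGroup.of_card (n := K * p)
      change Nat.card (ZMod p → ZMod (p ^ K)) = p ^ (K * p)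
      rw [Nat.card_fun]
      simp [pow_mul]
    · exact isLCM_of_comm (Multiplicative (ZMod p → ZMod (p ^ K)))

theorem fam_cover (p K : ℕ) [hp : Fact p.Prime] : IsCover (fam p K) (W p (p ^ K)) := by
  intro i
  match i with
  | true => exact ⟨(E p (p ^ K)).subtype, Subtype.val_injective⟩
  | false => exact ⟨base, base_injective⟩

theorem fam_not_same (p : ℕ) [hp : Fact p.Prime] (h2 : p ≠ 2) {K L : ℕ} (hL : 2 ≤ L)
    (h : K ≠ L) : ¬ (fam p K).Same (fam p L) := by
  rintro ⟨h1, -⟩
  have hneK : NeZero (p ^ K) := ⟨pow_ne_zero _ hp.out.ne_zero⟩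
  have hneL : NeZero (p ^ L) := ⟨pow_ne_zero _ hp.out.ne_zero⟩
  obtain ⟨j, ⟨e⟩⟩ := h1 false
  match j, e with
  | true, e =>
    obtain ⟨g, g', hg⟩ := exists_not_comm (p := p) h2 (K := L) (by omega)
    change Multiplicative (ZMod p → ZMod (p ^ K)) ≃* E p (p ^ L) at e
    apply hg
    apply e.symm.injective
    rw [map_mul, map_mul, mul_comm]
  | false, e =>
    have h3 := Nat.card_congr e.toEquiv
    change Nat.card (ZMod p → ZMod (p ^ K)) = Nat.card (ZMod p → ZMod (p ^ L)) at h3
    rw [Nat.card_fun, Nat.card_fun, Nat.card_zmod, Nat.card_zmod, Nat.card_zmod] at h3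
    have h4 := Nat.pow_left_injective hp.out.ne_zero h3
    exact h (Nat.pow_right_injective hp.out.two_le h4)

/-! ## Minimum covers are not LCM-groups -/

theorem minCover_not_lcm (p : ℕ) [hp : Fact p.Prime] (h2 : p ≠ 2) {K : ℕ} (hK : 2 ≤ K)
    (H : Type) [Group H] [Finite H] (hH : IsMinCover (fam p K) H) : ¬ IsLCMGroup H := by
  intro hL
  have hne : NeZero (p ^ K) := ⟨pow_ne_zero _ hp.out.ne_zero⟩
  have hpH : IsPGroup p H := isPGroup_of_minCover (fun i => (fam_lcm p K i).1) hH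
  obtain ⟨fA, hfA⟩ : ∃ f : Multiplicative (ZMod p → ZMod (p ^ K)) →* H, Function.Injective f :=
    hH.1 false
  obtain ⟨fE, hfE⟩ : ∃ f : E p (p ^ K) →* H, Function.Injective f := hH.1 true
  set A := fA.range with hA
  have hcomm : ∀ a ∈ A, ∀ b ∈ A, a * b = b * a := by
    rintro _ ⟨a, rfl⟩ _ ⟨b, rfl⟩
    rw [← map_mul, ← map_mul, mul_comm]
  -- orders
  have hcA : Nat.card A = (p ^ K) ^ p := by
    rw [hA, ← Nat.card_congr (MonoidHom.ofInjective hfA).toEquiv]
    change Nat.card (ZMod p → ZMod (p ^ K)) = _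
    rw [Nat.card_fun, Nat.card_zmod, Nat.card_zmod]
  have hle : Nat.card H ≤ p * (p ^ K) ^ p := by
    rw [← W.card (p := p) (m := p ^ K)]
    exact hH.2 _ (fam_cover p K)
  have hidx : A.index ≤ p := by
    have := A.index_mul_card
    rw [hcA] at this
    have hpos : 0 < (p ^ K) ^ p := pow_pos (pow_pos hp.out.pos _) _
    rw [← this] at hle
    exact Nat.le_of_mul_le_mul_right hle hpos
  obtain ⟨s, hs⟩ := hpH.exists_card_eq
  have hidx1 : A.index ≠ 1 := by
    intro h
    rw [Subgroup.index_eq_one] at h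
    obtain ⟨g, g', hg⟩ := exists_not_comm (p := p) h2 (K := K) (by omega)
    apply hg
    apply hfE
    rw [map_mul, map_mul]
    exact hcomm _ (h ▸ Subgroup.mem_top _) _ (h ▸ Subgroup.mem_top _)
  have hidxp : A.index = p := by
    have h3 : A.index ∣ p ^ s := hs ▸ A.index_dvd_card
    obtain ⟨t, -, ht⟩ := (Nat.dvd_prime_pow hp.out).1 h3
    rw [ht] at hidx hidx1 ⊢
    have ht0 : t ≠ 0 := fun h => hidx1 (by rw [h, pow_zero])
    have ht1 : t ≤ 1 := by
      by_contra h
      have h4 : p ^ 1 < p ^ t := Nat.pow_lt_pow_right hp.out.one_lt (by omega)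
      rw [pow_one] at h4
      omega
    have : t = 1 := by omega
    rw [this, pow_one]
  have hs0 : s ≠ 0 := by
    intro h
    rw [h, pow_zero] at hs
    have h3 : A.index ∣ 1 := hs ▸ A.index_dvd_card
    exact hidx1 (Nat.dvd_one.1 h3)
  have hN : A.Normal := by
    apply Subgroup.normal_of_index_eq_minFac_card
    rw [hidxp, hs, hp.out.pow_minFac hs0]
  -- the commutator computation
  have key : ∀ e ∈ A, e ^ p = 1 → ∀ y : H, y ^ p = 1 → e * y = y * e := by
    rintro _ ⟨u, rfl⟩ he y hy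
    have hu : ∀ i, (p : ZMod (p ^ K)) * u.toAdd i = 0 := by
      rw [← map_pow] at he
      have h3 := hfA (he.trans (map_one fA).symm)
      have h4 := congrArg Multiplicative.toAdd h3
      intro i
      have h5 := congrFun h4 i
      simpa [nsmul_eq_mul] using h5
    choose r hr using fun i => exists_root hK (u.toAdd i) (hu i)
    set a : H := fA (Multiplicative.ofAdd r) with ha
    have haA : a ∈ A := ⟨_, rfl⟩
    have hap : fA u = a ^ p := by
      rw [ha, ← map_pow]
      congr 1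
      apply Multiplicative.toAdd.injective
      funext i
      simp [nsmul_eq_mul, hr]
    -- `b = y a⁻¹ y⁻¹`
    have hb : y * a⁻¹ * y⁻¹ ∈ A := hN.conj_mem _ (A.inv_mem haA) y
    have hc1 : (a * (y * a⁻¹ * y⁻¹)) ^ p = 1 := by
      have h3 := hL (a * y * a⁻¹) 1 y⁻¹
      rw [pow_one] at h3
      have h4 : orderOf (a * y * a⁻¹) ∣ p := by
        apply orderOf_dvd_of_pow_eq_one
        rw [conj_pow, hy]
        simp
      have h5 : orderOf y⁻¹ ∣ p := by
        apply orderOf_dvd_of_pow_eq_one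
        rw [inv_pow, hy, inv_one]
      have h6 := h3.trans (Nat.lcm_dvd h4 h5)
      have h7 : a * (y * a⁻¹ * y⁻¹) = a * y * a⁻¹ * y⁻¹ := by group
      rw [h7]
      exact orderOf_dvd_iff_pow_eq_one.1 h6
    have hcom : Commute a (y * a⁻¹ * y⁻¹) := hcomm _ haA _ hb
    rw [hcom.mul_pow, conj_pow, inv_pow, ← hap] at hc1
    have h8 : fA u * y * (fA u)⁻¹ = y := by
      have : fA u * (y * (fA u)⁻¹ * y⁻¹) * y = y := by rw [hc1, one_mul]
      calc fA u * y * (fA u)⁻¹ = fA u * (y * (fA u)⁻¹ * y⁻¹) * y := by group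
        _ = y := this
    calc fA u * y = fA u * y * (fA u)⁻¹ * fA u := by group
      _ = y * fA u := by rw [h8]
  -- `E` is commutative
  obtain ⟨g, g', hg⟩ := exists_not_comm (p := p) h2 (K := K) (by omega)
  apply hg
  apply hfE
  rw [map_mul, map_mul]
  have hgp : ∀ g : E p (p ^ K), fE g ^ p = 1 := fun g => by rw [← map_pow, E_pow, map_one]
  by_cases h1 : fE g ∈ A
  · exact key _ h1 (hgp g) _ (hgp g')
  · -- `g'` is a power of `g` modulo `A`
    have hq : Nat.card (H ⧸ A) = p := hidxp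
    have hne1 : (QuotientGroup.mk (fE g) : H ⧸ A) ≠ 1 := by
      rw [Ne, QuotientGroup.eq_one_iff]
      exact h1
    have h3 := mem_zpowers_of_prime_card hq (g := (QuotientGroup.mk (fE g) : H ⧸ A))
      (g' := (QuotientGroup.mk (fE g') : H ⧸ A)) hne1
    obtain ⟨z, hz⟩ := h3
    have hz' : (QuotientGroup.mk (fE (g ^ z)) : H ⧸ A) = QuotientGroup.mk (fE g') := by
      rw [← hz, map_zpow]
      rfl
    have h4 : (fE (g ^ z))⁻¹ * fE g' ∈ A := QuotientGroup.eq.1 hz'
    have h5 : (fE (g ^ z))⁻¹ * fE g' = fE ((g ^ z)⁻¹ * g') := by simp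
    rw [h5] at h4
    have h6 := key _ h4 (hgp _) _ (hgp g)
    have h7 : fE g' = fE (g ^ z) * fE ((g ^ z)⁻¹ * g') := by
      rw [← map_mul]
      congr 1
      group
    have h8 : fE g * fE (g ^ z) = fE (g ^ z) * fE g := by
      rw [← map_mul, ← map_mul, (Commute.self_zpow g z).eq]
    rw [h7, ← mul_assoc, h8, mul_assoc, ← h6, mul_assoc]

end Pool.Agent.E8helper7.LCM
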